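import Pool.Agent.H86.OCV.Rela0

/-!
# OCV: RELA from REL

REL is applied on the space of the scheme extended by two samples of the line of `w k v`.
-/

set_option autoImplicit false

namespace Pool.OCV

open Finset Real
open Pool.Agent.H49.Ent Pool.Agent.H32.Dense Pool.STK Pool.KAF
open Pool.OCM Line
open Pool.OC (sc)

section

variable {Ω Ω₁ S : Type} [Fintype Ω] [Fintype Ω₁]

/-- Gluing along a marginal: resampling. -/
theorem glue_pull {q₁ : Ω₁ → ℝ} {P : Ω → ℝ} {f : Ω₁ → Ω} (m : Marg q₁ P f) (Z : Ω → S)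
    (v : Ω₁) (a : Ω) : glue q₁ P (fun v => Z (f v)) Z (v, a) =
      q₁ v * Pool.Agent.H49.Ent.cond P Z (Z (f v)) a := by
  classical
  unfold glue Pool.Agent.H49.Ent.cond
  rw [m.law Z]
  by_cases h : Z (f v) = Z a
  · rw [if_pos h, if_pos h.symm, mul_div_assoc]
  · rw [if_neg h, if_neg (fun h' => h h'.symm), mul_zero]

theorem isLaw_glue {q₁ : Ω₁ → ℝ} {P : Ω → ℝ} (h₁ : IsLaw q₁) (h₂ : IsLaw P) {Z₁ : Ω₁ → S}
    {Z₂ : Ω → S} (hZ : ∀ z, law q₁ Z₁ z = law P Z₂ z) : IsLaw (glue q₁ P Z₁ Z₂) :=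
  ⟨glue_nonneg h₁.nonneg h₂.nonneg, by rw [(marg_fst h₁.nonneg hZ).sum, h₁.sum_one]⟩

/-- Interchange of finite sums. -/
theorem sum_swap {A B U : Type} [Fintype A] [Fintype B] [Fintype U] (I : Finset ℕ) (pa : A → ℝ)
    (pb : B → ℝ) (l : ℕ → U → Prop) [∀ r u, Decidable (l r u)] (f : A → B → ℕ → U → ℝ) (s : ℝ) :
    ∑ a, ∑ b, pa a * pb b * ∑ r ∈ I, (∑ u, if l r u then f a b r u else 0) / s =
      ∑ r ∈ I, (∑ u, if l r u then ∑ a, pa a * ∑ b, pb b * f a b r u else 0) / s := by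
  have e1 : ∀ a b, pa a * pb b * ∑ r ∈ I, (∑ u, if l r u then f a b r u else 0) / s =
      ∑ r ∈ I, ∑ u, (if l r u then pa a * (pb b * f a b r u) else 0) / s := by
    intro a b
    rw [Finset.mul_sum]
    refine Finset.sum_congr rfl fun r _ => ?_
    rw [Finset.sum_div, Finset.mul_sum]
    refine Finset.sum_congr rfl fun u _ => ?_
    split_ifs <;> ring
  have e2 : ∀ r, (∑ u, if l r u then ∑ a, pa a * ∑ b, pb b * f a b r u else 0) / s =
      ∑ u, ∑ a, ∑ b, (if l r u then pa a * (pb b * f a b r u) else 0) / s := by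
    intro r
    rw [Finset.sum_div]
    refine Finset.sum_congr rfl fun u _ => ?_
    split_ifs with h
    · rw [Finset.sum_div]
      refine Finset.sum_congr rfl fun a _ => ?_
      rw [Finset.mul_sum, Finset.sum_div]
    · simp
  simp_rw [e1, e2]
  calc ∑ a, ∑ b, ∑ r ∈ I, ∑ u, (if l r u then pa a * (pb b * f a b r u) else 0) / s
      = ∑ a, ∑ r ∈ I, ∑ b, ∑ u, (if l r u then pa a * (pb b * f a b r u) else 0) / s :=
        Finset.sum_congr rfl fun a _ => Finset.sum_comm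
    _ = ∑ r ∈ I, ∑ a, ∑ b, ∑ u, (if l r u then pa a * (pb b * f a b r u) else 0) / s :=
        Finset.sum_comm
    _ = ∑ r ∈ I, ∑ a, ∑ u, ∑ b, (if l r u then pa a * (pb b * f a b r u) else 0) / s :=
        Finset.sum_congr rfl fun r _ => Finset.sum_congr rfl fun a _ => Finset.sum_comm
    _ = _ := Finset.sum_congr rfl fun r _ => Finset.sum_comm

end

/-- The conclusion of REL for one system of data. -/
def RB (c k₇ kz g K r₁ : ℕ) (c₁ ε D δ : ℝ) (C : Cov c) (A kmax : ℕ) (d : Dat c) : Prop :=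
  ∀ (Ω ξ₁ ξ : Type) [Fintype Ω] (Q : Ω → ℝ) (w₁ wm w₀ : Ω → d.Om) (x₁ : Ω → ξ₁) (x : Ω → ξ)
    (M : ξ₁ → Fin c → Fin c → ℝ), IsLaw Q →
    (∀ ω, law Q w₁ ω = d.P ω) → (∀ ω, law Q wm ω = d.P ω) → (∀ ω, law Q w₀ ω = d.P ω) →
    (∀ v, 0 < Q v → d.L (wm v) = d.L (w₁ v) ∧ d.L (w₀ v) = d.L (w₁ v)) →
    Det Q x₁ (fun v => (d.vis (w₁ v), d.T (w₁ v))) →
    Det Q x (fun v => (x₁ v, d.T (wm v), d.T (w₀ v), d.B (w₁ v))) →
    Pool.KVA.MI Q (fun v => d.L (w₁ v)) x (fun v => d.B (w₁ v)) ≤ δ * d.X →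
    Pool.KVA.MI Q (fun v => d.N (w₁ v)) (fun v => d.B (w₁ v)) x₁ ≤ δ * d.X →
    (∀ t, ZOK kmax (M t)) →
    ∑ v, Q v * ∑ r ∈ Finset.Ico (r₁ + A + kmax) (d.X - (r₁ + A + kmax)),
      (open Classical in if Adm d (M (x₁ v)) kz g (d.T (w₁ v)) (d.T (wm v)) (d.T (w₀ v)) ∧
          0 ≤ (r : ℤ) - mus d (d.T (w₁ v)) (d.T (wm v)) (d.T (w₀ v)) ∧
          d.act c₁ k₇ ((r : ℤ) - mus d (d.T (w₁ v)) (d.T (wm v)) (d.T (w₀ v))).toNat
            (d.L (w₁ v)) then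
        (∑ u : Fin c → Fin (2 ^ d.X),
          if low Q (sh (fun v => nz (M (x₁ v)) (d.N (w₁ v))) u) x₁ (d.X + (kz + 4) + 1 - r)
              K D v ∧
            (2 : ℝ) ^ (-(g : ℤ)) <
              |∑ i, C ξ₁ (law Q (fun v => (nz (M (x₁ v)) (d.N (w₁ v)), x₁ v))) d.X r u
                  (nz (M (x₁ v)) (d.N (w₁ v))) (x₁ v) i *
                (zc (M (x₁ v)) (d.chi (d.T (w₁ v)) (d.T (wm v))) i +
                  zc (M (x₁ v)) (d.chi (d.T (w₁ v)) (d.T (w₀ v))) i)|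
          then (1 : ℝ) else 0) / (2 : ℝ) ^ (c * d.X)
      else 0) ≤ ε * d.X

section

variable {c : ℕ} (d : Dat c) {R : Type} [Fintype R] (Q : R → ℝ)

/-- The scheme extended by one sample of the line. -/
noncomputable def ex1 (wk : R → d.Om) (i : ℕ) : R × d.Om → ℝ :=
  glue Q d.P (fun v => (d.L (wk v), d.Ti i (wk v))) (fun ω => (d.L ω, d.Ti i ω))

/-- The scheme extended by two samples of the line. -/
noncomputable def ex2 (wk : R → d.Om) (i j : ℕ) : (R × d.Om) × d.Om → ℝ :=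
  glue (ex1 d Q wk i) d.P (fun v => (d.L (wk v.1), d.Ti j (wk v.1))) (fun ω => (d.L ω, d.Ti j ω))

end

section

variable {c : ℕ} {d : Dat c} {R : Type} [Fintype R] {Q : R → ℝ} {wk : R → d.Om} {i j : ℕ}

theorem ex1_fst (hQ : IsLaw Q) (m : Marg Q d.P wk) :
    Marg (ex1 d Q wk i) Q (fun z => z.1) :=
  marg_fst hQ.nonneg fun z => m.law (fun ω => (d.L ω, d.Ti i ω)) z

theorem ex1_wk (hQ : IsLaw Q) (m : Marg Q d.P wk) :
    Marg (ex1 d Q wk i) d.P (fun z => wk z.1) := (ex1_fst hQ m).comp m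

theorem ex1_snd (hP : IsLaw d.P) (m : Marg Q d.P wk) :
    Marg (ex1 d Q wk i) d.P (fun z => z.2) :=
  marg_snd hP.nonneg fun z => m.law (fun ω => (d.L ω, d.Ti i ω)) z

theorem ex1_law (hQ : IsLaw Q) (hP : IsLaw d.P) (m : Marg Q d.P wk) : IsLaw (ex1 d Q wk i) :=
  isLaw_glue hQ hP fun z => m.law (fun ω => (d.L ω, d.Ti i ω)) z

theorem ex2_fst (hQ : IsLaw Q) (hP : IsLaw d.P) (m : Marg Q d.P wk) :
    Marg (ex2 d Q wk i j) (ex1 d Q wk i) (fun z => z.1) :=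
  marg_fst (ex1_law hQ hP m).nonneg fun z => (ex1_wk hQ m).law (fun ω => (d.L ω, d.Ti j ω)) z

theorem ex2_snd (hQ : IsLaw Q) (hP : IsLaw d.P) (m : Marg Q d.P wk) :
    Marg (ex2 d Q wk i j) d.P (fun z => z.2) :=
  marg_snd hP.nonneg fun z => (ex1_wk hQ m).law (fun ω => (d.L ω, d.Ti j ω)) z

theorem ex2_law (hQ : IsLaw Q) (hP : IsLaw d.P) (m : Marg Q d.P wk) : IsLaw (ex2 d Q wk i j) :=
  isLaw_glue (ex1_law hQ hP m) hP fun z => (ex1_wk hQ m).law (fun ω => (d.L ω, d.Ti j ω)) z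

theorem ex2_R (hQ : IsLaw Q) (hP : IsLaw d.P) (m : Marg Q d.P wk) :
    Marg (ex2 d Q wk i j) Q (fun z => z.1.1) := (ex2_fst hQ hP m).comp (ex1_fst hQ m)

theorem ex2_apply (hQ : IsLaw Q) (m : Marg Q d.P wk) (v : R) (a b : d.Om) :
    ex2 d Q wk i j ((v, a), b) = Q v * (d.pk i (wk v) a * d.pk j (wk v) b) := by
  have h1 : ex2 d Q wk i j ((v, a), b) = ex1 d Q wk i (v, a) * d.pk j (wk v) b :=
    glue_pull (ex1_wk hQ m) (fun ω => (d.L ω, d.Ti j ω)) (v, a) b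
  have h2 : ex1 d Q wk i (v, a) = Q v * d.pk i (wk v) a :=
    glue_pull m (fun ω => (d.L ω, d.Ti i ω)) v a
  rw [h1, h2, mul_assoc]

theorem ex2_line (hQ : IsLaw Q) (hP : IsLaw d.P) (m : Marg Q d.P wk) {z : (R × d.Om) × d.Om}
    (hz : 0 < ex2 d Q wk i j z) : d.L z.1.2 = d.L (wk z.1.1) ∧ d.L z.2 = d.L (wk z.1.1) := by
  have h1 := ((glue_pos_iff (ex1_law hQ hP m).nonneg hP.nonneg z).mp hz)
  have h2 := ((glue_pos_iff hQ.nonneg hP.nonneg z.1).mp h1.1)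
  exact ⟨((Prod.ext_iff.mp h2.2.2).1).symm, ((Prod.ext_iff.mp h1.2.2).1).symm⟩

/-- The information of all the times about the line. -/
theorem ex2_mi {Λ' : Type} (hQ : IsLaw Q) (hP : IsLaw d.P) (m : Marg Q d.P wk) (x : R → Λ')
    (hx : Det Q x (fun v => d.T (wk v))) :
    Pool.KVA.MI (ex2 d Q wk i j) (fun z => d.L (wk z.1.1)) (fun z => ((x z.1.1, d.T z.1.2), d.T z.2))
      (fun z => d.b (d.L (wk z.1.1))) ≤
      Pool.KVA.MI Q (fun v => d.L (wk v)) x (fun v => d.b (d.L (wk v))) +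
        (Pool.KVA.MI d.P d.T d.L (fun ω => d.b (d.L ω)) +
          Pool.KVA.MI d.P d.T d.L (fun ω => d.b (d.L ω))) := by
  have s1 := MI_stepB (Q := Q) (P := d.P) (L₁ := fun v => d.L (wk v)) (t₁ := fun v => d.T (wk v))
    (x := x) (L := d.L) (T := d.T) (r := fun t => ⌊(2 : ℝ) ^ i * d.th t⌋) d.b hQ.nonneg hP
    (fun z => m.law (fun ω => (d.L ω, d.Ti i ω)) z)
    (fun v v' a b h => by
      have := hx v v' a b h
      simp only at this ⊢
      rw [this])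
  have s2 := MI_stepB (Q := ex1 d Q wk i) (P := d.P) (L₁ := fun v => d.L (wk v.1))
    (t₁ := fun v => d.T (wk v.1))
    (x := fun z => (x z.1, d.T z.2)) (L := d.L) (T := d.T)
    (r := fun t => ⌊(2 : ℝ) ^ j * d.th t⌋) d.b (ex1_law hQ hP m).nonneg hP
    (fun z => (ex1_wk hQ m).law (fun ω => (d.L ω, d.Ti j ω)) z)
    (fun v v' a b h => by
      have := hx v.1 v'.1 ((ex1_fst hQ m).pos (ex1_law hQ hP m).nonneg a)
        ((ex1_fst hQ m).pos (ex1_law hQ hP m).nonneg b) (Prod.ext_iff.mp h).1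
      simp only at this ⊢
      rw [this])
  have s1' : Pool.KVA.MI (ex1 d Q wk i) (fun v => d.L (wk v.1)) (fun z => (x z.1, d.T z.2))
      (fun v => d.b (d.L (wk v.1))) ≤
      Pool.KVA.MI Q (fun v => d.L (wk v)) x (fun v => d.b (d.L (wk v))) +
        Pool.KVA.MI d.P d.T d.L (fun ω => d.b (d.L ω)) := s1
  have s2' : Pool.KVA.MI (ex2 d Q wk i j) (fun z => d.L (wk z.1.1))
      (fun z => ((x z.1.1, d.T z.1.2), d.T z.2)) (fun z => d.b (d.L (wk z.1.1))) ≤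
      Pool.KVA.MI (ex1 d Q wk i) (fun v => d.L (wk v.1)) (fun z => (x z.1, d.T z.2))
        (fun v => d.b (d.L (wk v.1))) +
        Pool.KVA.MI d.P d.T d.L (fun ω => d.b (d.L ω)) := s2
  linarith

end

end Pool.OCV
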