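import Pool.Agent.H43.OC.RW
import Pool.Agent.H86.OC.RAS
import Pool.Agent.H98.OCV.Stmts3

/-!
# OCV: extension of a scheme by samples of the line

The information of the times about the line, given its context, and the invariance of the rows and
of the laws under the extension.
-/

set_option autoImplicit false

namespace Pool.OCV

open Finset Real
open Pool.Agent.H49.Ent Pool.Agent.H32.Dense Pool.STK Pool.KAF
open Pool.OCM Line
open Pool.OC (sc)
open Pool.OC.RS (cond_congr)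

section

variable {Ω Ω₁ Λ τ σ β U : Type} [Fintype Ω] [Fintype Ω₁]

/-- The time of a further copy carries little information about the line, given its context. -/
theorem MI_stepB {Q : Ω₁ → ℝ} {P : Ω → ℝ} {L₁ : Ω₁ → Λ}
    {t₁ : Ω₁ → σ} {x : Ω₁ → U} {L : Ω → Λ} {T : Ω → σ} {r : σ → τ} (bl : Λ → β)
    (hQ : ∀ ω, 0 ≤ Q ω) (hP : IsLaw P)
    (hL : ∀ z, law Q (fun w => (L₁ w, r (t₁ w))) z = law P (fun ω => (L ω, r (T ω))) z)
    (hx : Det Q x (fun w => r (t₁ w))) :
    Pool.KVA.MI (glue Q P (fun w => (L₁ w, r (t₁ w))) (fun ω => (L ω, r (T ω))))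
      (fun v => L₁ v.1) (fun v => (x v.1, T v.2)) (fun v => bl (L₁ v.1)) ≤
      Pool.KVA.MI Q L₁ x (fun w => bl (L₁ w)) + Pool.KVA.MI P T L (fun ω => bl (L ω)) := by
  classical
  set Z₁ : Ω₁ → Λ × τ := fun w => (L₁ w, r (t₁ w)) with hZ₁
  set Z₂ : Ω → Λ × τ := fun ω => (L ω, r (T ω)) with hZ₂
  have hP0 := hP.nonneg
  have hg := glue_nonneg (Z₁ := Z₁) (Z₂ := Z₂) hQ hP0
  have m1 : Marg (glue Q P Z₁ Z₂) Q (fun v => v.1) := marg_fst hQ hL
  have m2 : Marg (glue Q P Z₁ Z₂) P (fun v => v.2) := marg_snd hP0 hL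
  have heq : ∀ v, 0 < glue Q P Z₁ Z₂ v → L₁ v.1 = L v.2 ∧ r (t₁ v.1) = r (T v.2) := by
    intro v hv
    have h := ((glue_pos_iff hQ hP0 v).mp hv).2.2
    exact Prod.ext_iff.mp h
  set q := glue Q P Z₁ Z₂ with hq
  set bq : Ω₁ × Ω → β := fun v => bl (L₁ v.1) with hbq
  -- the entropy of the time given the context and the line
  have c1 : CH q (fun v => T v.2) (fun v => ((L₁ v.1, x v.1), bq v)) = CH P T Z₂ := by
    have h := CH_glue_snd hQ hP0 hL T x (Y := Z₂) (fun _ _ _ _ h => h)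
    rw [← h]
    refine CH_congr hg (fun _ _ _ _ h => (Prod.ext_iff.mp h).1)
      (fun _ _ _ _ h => (Prod.ext_iff.mp h).1) ?_ ?_
    · intro v v' a a' h
      have h' := Prod.ext_iff.mp (Prod.ext_iff.mp h).1
      have h1 := heq v a
      have h2 := heq v' a'
      have h3 : r (t₁ v.1) = r (t₁ v'.1) := hx _ _ (m1.pos hg a) (m1.pos hg a') h'.2
      refine Prod.ext (Prod.ext ?_ ?_) h'.2
      · show L v.2 = L v'.2
        rw [← h1.1, ← h2.1]
        exact h'.1
      · show r (T v.2) = r (T v'.2)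
        rw [← h1.2, ← h2.2, h3]
    · intro v v' a a' h
      have h' := Prod.ext_iff.mp h
      have h1 := heq v a
      have h2 := heq v' a'
      have h3 : L₁ v.1 = L₁ v'.1 := by
        rw [h1.1, h2.1]
        exact (Prod.ext_iff.mp h'.1).1
      refine Prod.ext (Prod.ext h3 h'.2) ?_
      show bl (L₁ v.1) = bl (L₁ v'.1)
      rw [h3]
  have c2 : CH q (fun v => T v.2) (fun v => (x v.1, bq v)) ≤
      CH P T (fun ω => (r (T ω), bl (L ω))) := by
    rw [← m2.CH T (fun ω => (r (T ω), bl (L ω)))]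
    refine CH_mono_cond hg ?_
    intro v v' a a' h
    have h' := Prod.ext_iff.mp h
    refine Prod.ext ?_ ?_
    · show r (T v.2) = r (T v'.2)
      rw [← (heq v a).2, ← (heq v' a').2]
      exact hx _ _ (m1.pos hg a) (m1.pos hg a') h'.1
    · show bl (L v.2) = bl (L v'.2)
      rw [← (heq v a).1, ← (heq v' a').1]
      exact h'.2
  -- the information in `P`
  have c3 : CH P T (fun ω => (r (T ω), bl (L ω))) - CH P T Z₂ ≤
      Pool.KVA.MI P T L (fun ω => bl (L ω)) := by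
    have e1 := CH_chain hP0 T (fun ω => r (T ω)) (fun ω => bl (L ω))
    have e2 := CH_chain hP0 T (fun ω => r (T ω)) (fun ω => (L ω, bl (L ω)))
    have e3 := CH_chain hP0 T L (fun ω => bl (L ω))
    have d1 : CH P (fun ω => (T ω, r (T ω))) (fun ω => bl (L ω)) =
        CH P T (fun ω => bl (L ω)) := by
      refine CH_congr hP0 (fun _ _ _ _ h => ?_) (fun _ _ _ _ h => ?_) (fun _ _ _ _ h => h)
        (fun _ _ _ _ h => h)
      · exact (Prod.ext_iff.mp (Prod.ext_iff.mp h).1).1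
      · have := (Prod.ext_iff.mp h).1
        exact Prod.ext this (congrArg r this)
    have d2 : CH P (fun ω => (T ω, r (T ω))) (fun ω => (L ω, bl (L ω))) =
        CH P T (fun ω => (L ω, bl (L ω))) := by
      refine CH_congr hP0 (fun _ _ _ _ h => ?_) (fun _ _ _ _ h => ?_) (fun _ _ _ _ h => h)
        (fun _ _ _ _ h => h)
      · exact (Prod.ext_iff.mp (Prod.ext_iff.mp h).1).1
      · have := (Prod.ext_iff.mp h).1
        exact Prod.ext this (congrArg r this)
    have d4 : CH P T (fun ω => (r (T ω), (L ω, bl (L ω)))) = CH P T Z₂ := by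
      refine CH_congr hP0 (fun _ _ _ _ h => (Prod.ext_iff.mp h).1)
        (fun _ _ _ _ h => (Prod.ext_iff.mp h).1) ?_ ?_
      · intro ω ω' _ _ h
        simp only [hZ₂, Prod.mk.injEq] at h ⊢
        tauto
      · intro ω ω' _ _ h
        simp only [hZ₂, Prod.mk.injEq] at h ⊢
        refine ⟨h.2, h.1, ?_⟩
        rw [h.1]
    have d5 : CH P (fun ω => r (T ω)) (fun ω => (L ω, bl (L ω))) ≤
        CH P (fun ω => r (T ω)) (fun ω => bl (L ω)) :=
      CH_mono_cond hP0 (fun _ _ _ _ h => (Prod.ext_iff.mp h).2)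
    unfold Pool.KVA.MI
    have d6 : CH P (fun ω => (T ω, L ω)) (fun ω => bl (L ω)) =
        CH P L (fun ω => bl (L ω)) + CH P T (fun ω => (L ω, bl (L ω))) := e3
    linarith
  -- the chain rule
  have e1 := CH_chain hg (fun v => T v.2) (fun v => x v.1) bq
  have e2 := CH_chain hg (fun v => T v.2) (fun v => (L₁ v.1, x v.1)) bq
  have d3 : CH q (fun v => (x v.1, T v.2)) bq = CH q (fun v => (T v.2, x v.1)) bq := by
    refine CH_congr hg ?_ ?_ (fun _ _ _ _ h => h) (fun _ _ _ _ h => h) <;>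
    · intro ω ω' _ _ h
      simp only [Prod.mk.injEq] at h ⊢
      tauto
  have d4 : CH q (fun v => (L₁ v.1, (x v.1, T v.2))) bq =
      CH q (fun v => (T v.2, (L₁ v.1, x v.1))) bq := by
    refine CH_congr hg ?_ ?_ (fun _ _ _ _ h => h) (fun _ _ _ _ h => h) <;>
    · intro ω ω' _ _ h
      simp only [Prod.mk.injEq] at h ⊢
      tauto
  have f1 : CH q (fun v => L₁ v.1) bq = CH Q L₁ (fun w => bl (L₁ w)) :=
    m1.CH L₁ (fun w => bl (L₁ w))
  have f2 : CH q (fun v => x v.1) bq = CH Q x (fun w => bl (L₁ w)) :=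
    m1.CH x (fun w => bl (L₁ w))
  have f3 : CH q (fun v => (L₁ v.1, x v.1)) bq =
      CH Q (fun w => (L₁ w, x w)) (fun w => bl (L₁ w)) :=
    m1.CH (fun w => (L₁ w, x w)) (fun w => bl (L₁ w))
  show CH q (fun v => L₁ v.1) bq + CH q (fun v => (x v.1, T v.2)) bq -
    CH q (fun v => (L₁ v.1, (x v.1, T v.2))) bq ≤
    (CH Q L₁ (fun w => bl (L₁ w)) + CH Q x (fun w => bl (L₁ w)) -
      CH Q (fun w => (L₁ w, x w)) (fun w => bl (L₁ w))) + _
  rw [d3, d4, e1, e2, f1, f2, f3, c1]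
  linarith

end

section

variable {Ω Ω' S S' : Type} [Fintype Ω] [Fintype Ω'] {c : ℕ}

/-- Conditional laws of an extension. -/
theorem marg_cond {q : Ω' → ℝ} {p : Ω → ℝ} {pr : Ω' → Ω} (h : Marg q p pr) (F : Ω → S) (z : S) :
    Marg (Pool.Agent.H49.Ent.cond q (fun w => F (pr w)) z)
      (Pool.Agent.H49.Ent.cond p F z) pr := by
  classical
  intro ω
  unfold Pool.Agent.H49.Ent.cond
  rw [h.law F z]
  by_cases hz : F ω = z
  · rw [if_pos hz, ← h ω, Finset.sum_div]
    refine Finset.sum_congr rfl fun v _ => ?_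
    by_cases h1 : pr v = ω
    · rw [if_pos h1, if_pos h1, if_pos (by show F (pr v) = z; rw [h1]; exact hz)]
    · rw [if_neg h1, if_neg h1, zero_div]
  · rw [if_neg hz]
    refine Finset.sum_eq_zero fun v _ => ?_
    by_cases h1 : pr v = ω
    · rw [if_pos h1, if_neg (by show ¬ F (pr v) = z; rw [h1]; exact hz)]
    · rw [if_neg h1]

/-- The rows of an extension. -/
theorem low_marg {θ : Type} {q : Ω' → ℝ} {p : Ω → ℝ} {pr : Ω' → Ω} (h : Marg q p pr)
    (N : Ω → Fin c → ℤ) (τ : Ω → θ) (κ K : ℕ) (D : ℝ) (w : Ω') :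
    low q (fun v => N (pr v)) (fun v => τ (pr v)) κ K D w ↔ low p N τ κ K D (pr w) := by
  unfold low rowHV
  have e : H (Pool.Agent.H49.Ent.cond q (fun v => (rc (fun v => N (pr v)) (κ + K) v, τ (pr v)))
      (rc (fun v => N (pr v)) (κ + K) w, τ (pr w))) (rc (fun v => N (pr v)) κ) =
      H (Pool.Agent.H49.Ent.cond p (fun v => (rc N (κ + K) v, τ v))
        (rc N (κ + K) (pr w), τ (pr w))) (rc N κ) :=
    (marg_cond h (fun v => (rc N (κ + K) v, τ v)) (rc N (κ + K) (pr w), τ (pr w))).H (rc N κ)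
  rw [e]

/-- The rows depend on the values on the support only. -/
theorem low_congr {θ : Type} {p : Ω → ℝ} (hp : ∀ ω, 0 ≤ p ω) {N N' : Ω → Fin c → ℤ}
    {τ τ' : Ω → θ} (h : ∀ ω, 0 < p ω → N ω = N' ω ∧ τ ω = τ' ω) (κ K : ℕ) (D : ℝ) {w : Ω}
    (hw : 0 < p w) : low p N τ κ K D w ↔ low p N' τ' κ K D w := by
  unfold low rowHV
  have hr : ∀ (k : ℕ) (ω : Ω), 0 < p ω → rc N k ω = rc N' k ω := by
    intro k ω hω
    unfold rc
    rw [(h ω hω).1]
  have e1 : Pool.Agent.H49.Ent.cond p (fun v => (rc N (κ + K) v, τ v)) (rc N (κ + K) w, τ w) =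
      Pool.Agent.H49.Ent.cond p (fun v => (rc N' (κ + K) v, τ' v)) (rc N' (κ + K) w, τ' w) := by
    refine cond_congr hp fun v hv => ?_
    rw [hr _ v hv, hr _ w hw, (h v hv).2, (h w hw).2]
  have hc : ∀ ω, 0 < Pool.Agent.H49.Ent.cond p (fun v => (rc N' (κ + K) v, τ' v))
      (rc N' (κ + K) w, τ' w) ω → 0 < p ω := fun ω hω =>
    ((cond_pos_iff hp _ _ ω).1 hω).1
  have e2 : H (Pool.Agent.H49.Ent.cond p (fun v => (rc N' (κ + K) v, τ' v))
      (rc N' (κ + K) w, τ' w)) (rc N κ) =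
      H (Pool.Agent.H49.Ent.cond p (fun v => (rc N' (κ + K) v, τ' v))
      (rc N' (κ + K) w, τ' w)) (rc N' κ) := by
    refine H_congr (cond_nonneg hp _ _) ?_ ?_
    · intro ω ω' a b e
      rw [hr κ ω (hc ω a), hr κ ω' (hc ω' b)]
      exact e
    · intro ω ω' a b e
      rw [← hr κ ω (hc ω a), ← hr κ ω' (hc ω' b)]
      exact e
  rw [e1, e2]

/-- Laws of variables which agree on the support. -/
theorem law_congr' {p : Ω → ℝ} (hp : ∀ ω, 0 ≤ p ω) {F F' : Ω → S}
    (h : ∀ ω, 0 < p ω → F ω = F' ω) : law p F = law p F' := by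
  classical
  funext z
  unfold law
  refine Finset.sum_congr rfl fun v _ => ?_
  rcases (hp v).eq_or_lt with h0 | h0
  · rw [← h0]
    simp
  · rw [h v h0]

end

end Pool.OCV
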