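import Pool.Agent.H86.OCV.Rela

/-!
# OCV: RELA from REL, the sums
-/

set_option autoImplicit false

namespace Pool.OCV

open Finset Real
open Pool.Agent.H49.Ent Pool.Agent.H32.Dense Pool.STK Pool.KAF
open Pool.OCM Line
open Pool.OC (sc)

variable {c : ℕ}

theorem mn_congr (d : Dat c) {R : Type} [Fintype R] {Q : R → ℝ} (hQ : ∀ v, 0 ≤ Q v)
    (w₀ : R → d.Om) (ρ : Fin c → R → d.Om)
    (M : (d.Vt × d.Tau) × (Fin c → d.Tau) → Fin c → Fin c → ℝ) (kz K : ℕ) (D : ℝ)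
    (I : Finset ℕ) {f f' : R → ℕ → (Fin c → Fin (2 ^ d.X)) → ℝ}
    (h : ∀ v, 0 < Q v → ∀ r u, f v r u = f' v r u) :
    mn d Q w₀ ρ M kz K D I f = mn d Q w₀ ρ M kz K D I f' := by
  classical
  unfold mn
  refine Finset.sum_congr rfl fun v _ => ?_
  rcases (hQ v).eq_or_lt with h0 | h0
  · rw [← h0, zero_mul, zero_mul]
  · congr 1
    refine Finset.sum_congr rfl fun r _ => ?_
    congr 1
    refine Finset.sum_congr rfl fun u _ => ?_
    rw [h v h0 r u]

/-- REL for the scheme extended by two samples: `wm` mates, `wp` partner. -/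
theorem rela_core {k₇ kz g K r₁ : ℕ} {c₁ ε D δ : ℝ} {C : Cov c} {A kmax : ℕ} {d : Dat c}
    (hOK : d.OK A) (hRB : RB c k₇ kz g K r₁ c₁ ε D δ C A kmax d)
    {R : Type} [Fintype R] {Q : R → ℝ} {w₀ : R → d.Om} {w ρ : Fin c → R → d.Om} {δ' : ℝ}
    (hS : Sch d Q w₀ w ρ δ') (h1 : d.H1 δ') (hδ : 3 * δ' ≤ δ) (hδ1 : δ' ≤ δ)
    {M : (d.Vt × d.Tau) × (Fin c → d.Tau) → Fin c → Fin c → ℝ} (hM : ∀ t, ZOK kmax (M t))
    (k : Fin c) (i j : ℕ) (wm wp : (R × d.Om) × d.Om → d.Om)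
    (lm : Marg (ex2 d Q (w k) i j) d.P wm) (lp : Marg (ex2 d Q (w k) i j) d.P wp)
    (hL : ∀ z, 0 < ex2 d Q (w k) i j z →
      d.L (wm z) = d.L (w k z.1.1) ∧ d.L (wp z) = d.L (w k z.1.1))
    (hTm : Det (ex2 d Q (w k) i j) (fun z => ((xr d w₀ ρ z.1.1, d.T z.1.2), d.T z.2))
      (fun z => d.T (wm z)))
    (hTp : Det (ex2 d Q (w k) i j) (fun z => ((xr d w₀ ρ z.1.1, d.T z.1.2), d.T z.2))
      (fun z => d.T (wp z))) :
    mn d Q w₀ ρ M kz K D (Finset.Ico (r₁ + A + kmax) (d.X - (r₁ + A + kmax)))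
      (fun v r u => ∑ a, d.pk i (w k v) a * ∑ b, d.pk j (w k v) b *
        (open Classical in if Bad d (M (xr d w₀ ρ v)) kz g k₇ c₁ r (w k v)
          (phi d C Q w₀ ρ M v r u) (wm ((v, a), b)) (wp ((v, a), b)) then (1 : ℝ) else 0)) ≤
      ε * d.X := by
  classical
  have hP := hOK.law
  have hQ := hS.law
  have hQ0 := hQ.nonneg
  have mk : Marg Q d.P (w k) := fun ω => hS.lw k ω
  have hX : (0 : ℝ) ≤ d.X := Nat.cast_nonneg _
  obtain ⟨q, hq⟩ : ∃ q, q = ex2 d Q (w k) i j := ⟨_, rfl⟩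
  rw [← hq] at lm lp hL hTm hTp
  have hql : IsLaw q := by rw [hq]; exact ex2_law hQ hP mk
  have mR : Marg q Q (fun z => z.1.1) := by rw [hq]; exact ex2_R hQ hP mk
  -- the samples `w k` and `w₀` have the same point
  have hpt : ∀ v, 0 < Q v → d.vis (w k v) = d.vis (w₀ v) ∧ d.N (w k v) = d.N (w₀ v) ∧
      d.T (w k v) = d.T (w₀ v) := by
    intro v hv
    have := hS.pt v hv k
    unfold Dat.pt at this
    simpa only [Prod.mk.injEq] using this
  have hxT : Det Q (xr d w₀ ρ) (fun v => d.T (w k v)) := by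
    intro v v' a b h
    have h' : d.T (w₀ v) = d.T (w₀ v') := by
      have := (Prod.ext_iff.mp h).1
      exact (Prod.ext_iff.mp this).2
    show d.T (w k v) = d.T (w k v')
    rw [(hpt v a).2.2, (hpt v' b).2.2, h']
  have hmi : Pool.KVA.MI q (fun z => d.L (w k z.1.1))
      (fun z => (((xr d w₀ ρ z.1.1, d.T z.1.2), d.T z.2), d.B (w k z.1.1)))
      (fun z => d.B (w k z.1.1)) ≤ δ * d.X := by
    have e := ex2_mi (i := i) (j := j) hQ hP mk (xr d w₀ ρ) hxT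
    rw [← hq] at e
    have e1 : Pool.KVA.MI q (fun z => d.L (w k z.1.1))
        (fun z => (((xr d w₀ ρ z.1.1, d.T z.1.2), d.T z.2), d.B (w k z.1.1)))
        (fun z => d.B (w k z.1.1)) =
        Pool.KVA.MI q (fun z => d.L (w k z.1.1))
        (fun z => ((xr d w₀ ρ z.1.1, d.T z.1.2), d.T z.2)) (fun z => d.B (w k z.1.1)) := by
      unfold Pool.KVA.MI
      have f1 : CH q (fun z => (((xr d w₀ ρ z.1.1, d.T z.1.2), d.T z.2), d.B (w k z.1.1)))
          (fun z => d.B (w k z.1.1)) = CH q (fun z => ((xr d w₀ ρ z.1.1, d.T z.1.2), d.T z.2))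
          (fun z => d.B (w k z.1.1)) := by
        refine CH_congr hql.nonneg (fun _ _ _ _ h => ?_) (fun _ _ _ _ h => ?_)
          (fun _ _ _ _ h => h) (fun _ _ _ _ h => h)
        · exact (Prod.ext_iff.mp (Prod.ext_iff.mp h).1).1
        · exact Prod.ext (Prod.ext_iff.mp h).1 (Prod.ext_iff.mp h).2
      have f2 : CH q (fun z => (d.L (w k z.1.1),
            (((xr d w₀ ρ z.1.1, d.T z.1.2), d.T z.2), d.B (w k z.1.1))))
          (fun z => d.B (w k z.1.1)) =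
          CH q (fun z => (d.L (w k z.1.1), ((xr d w₀ ρ z.1.1, d.T z.1.2), d.T z.2)))
          (fun z => d.B (w k z.1.1)) := by
        refine CH_congr hql.nonneg (fun _ _ _ _ h => ?_) (fun _ _ _ _ h => ?_)
          (fun _ _ _ _ h => h) (fun _ _ _ _ h => h) <;>
        · simp only [Prod.mk.injEq] at h ⊢
          tauto
      rw [f1, f2]
    rw [e1]
    have e2 := hS.mi k
    have e3 := h1.1
    have e4 : Pool.KVA.MI Q (fun v => d.L (w k v)) (xr d w₀ ρ) (fun v => d.b (d.L (w k v))) ≤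
      δ' * d.X := e2
    have e5 : Pool.KVA.MI d.P d.T d.L (fun ω => d.b (d.L ω)) ≤ δ' * d.X := e3
    have e6 : Pool.KVA.MI q (fun z => d.L (w k z.1.1))
      (fun z => ((xr d w₀ ρ z.1.1, d.T z.1.2), d.T z.2)) (fun z => d.B (w k z.1.1)) ≤
      Pool.KVA.MI Q (fun v => d.L (w k v)) (xr d w₀ ρ) (fun v => d.b (d.L (w k v))) +
        (Pool.KVA.MI d.P d.T d.L (fun ω => d.b (d.L ω)) +
          Pool.KVA.MI d.P d.T d.L (fun ω => d.b (d.L ω))) := e
    have e7 : 3 * δ' * d.X ≤ δ * d.X := mul_le_mul_of_nonneg_right hδ hX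
    linarith
  have hmn : Pool.KVA.MI q (fun z => d.N (w k z.1.1)) (fun z => d.B (w k z.1.1))
      (fun z => xr d w₀ ρ z.1.1) ≤ δ * d.X := by
    have e1 : Pool.KVA.MI q (fun z => d.N (w k z.1.1)) (fun z => d.B (w k z.1.1))
        (fun z => xr d w₀ ρ z.1.1) = Pool.KVA.MI Q (fun v => d.N (w k v))
          (fun v => d.B (w k v)) (xr d w₀ ρ) := by
      unfold Pool.KVA.MI
      rw [mR.CH (fun v => d.N (w k v)) (xr d w₀ ρ), mR.CH (fun v => d.B (w k v)) (xr d w₀ ρ),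
        mR.CH (fun v => (d.N (w k v), d.B (w k v))) (xr d w₀ ρ)]
    have e2 : Pool.KVA.MI Q (fun v => d.N (w k v)) (fun v => d.B (w k v)) (xr d w₀ ρ) =
        Pool.KVA.MI Q (fun v => d.N (w₀ v)) (fun v => d.B (w k v)) (xr d w₀ ρ) := by
      unfold Pool.KVA.MI
      have f1 : CH Q (fun v => d.N (w k v)) (xr d w₀ ρ) = CH Q (fun v => d.N (w₀ v))
          (xr d w₀ ρ) := by
        refine CH_congr hQ0 (fun v v' a b h => ?_) (fun v v' a b h => ?_)
          (fun _ _ _ _ h => h) (fun _ _ _ _ h => h)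
        · rw [← (hpt v a).2.1, ← (hpt v' b).2.1]
          exact (Prod.ext_iff.mp h).1
        · show d.N (w k v) = d.N (w k v')
          rw [(hpt v a).2.1, (hpt v' b).2.1]
          exact (Prod.ext_iff.mp h).1
      have f2 : CH Q (fun v => (d.N (w k v), d.B (w k v))) (xr d w₀ ρ) =
          CH Q (fun v => (d.N (w₀ v), d.B (w k v))) (xr d w₀ ρ) := by
        refine CH_congr hQ0 (fun v v' a b h => ?_) (fun v v' a b h => ?_)
          (fun _ _ _ _ h => h) (fun _ _ _ _ h => h)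
        · simp only [Prod.mk.injEq] at h ⊢
          rw [← (hpt v a).2.1, ← (hpt v' b).2.1]
          exact h.1
        · simp only [Prod.mk.injEq] at h ⊢
          rw [(hpt v a).2.1, (hpt v' b).2.1]
          exact h.1
      rw [f1, f2]
    rw [e1, e2]
    exact (hS.mn k).trans (mul_le_mul_of_nonneg_right hδ1 hX)
  have key := hRB ((R × d.Om) × d.Om) ((d.Vt × d.Tau) × (Fin c → d.Tau))
    ((((((d.Vt × d.Tau) × (Fin c → d.Tau)) × d.Tau) × d.Tau)) × d.Bt) q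
    (fun z => w k z.1.1) wm wp (fun z => xr d w₀ ρ z.1.1)
    (fun z => (((xr d w₀ ρ z.1.1, d.T z.1.2), d.T z.2), d.B (w k z.1.1))) M hql
    (fun ω => (mR.comp mk) ω) (fun ω => lm ω) (fun ω => lp ω) hL
    (fun z z' a b h => by
      have h1 := hxT _ _ (mR.pos hql.nonneg a) (mR.pos hql.nonneg b) h
      refine Prod.ext ?_ h1
      show d.vis (w k z.1.1) = d.vis (w k z'.1.1)
      rw [(hpt _ (mR.pos hql.nonneg a)).1, (hpt _ (mR.pos hql.nonneg b)).1]
      exact (Prod.ext_iff.mp (Prod.ext_iff.mp h).1).1)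
    (fun z z' a b h => by
      have h' := Prod.ext_iff.mp h
      have h1 := hTm z z' a b h'.1
      have h2 := hTp z z' a b h'.1
      refine Prod.ext ?_ (Prod.ext h1 (Prod.ext h2 h'.2))
      exact (Prod.ext_iff.mp (Prod.ext_iff.mp h'.1).1).1) hmi hmn hM
  refine le_trans (le_of_eq ?_) key
  -- the laws and the rows on the extended space
  have eL : law q (fun z => (nz (M (xr d w₀ ρ z.1.1)) (d.N (w k z.1.1)), xr d w₀ ρ z.1.1)) =
      law Q (fun v => (nq d w₀ ρ M v, xr d w₀ ρ v)) := by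
    have e1 : law q (fun z => (nz (M (xr d w₀ ρ z.1.1)) (d.N (w k z.1.1)), xr d w₀ ρ z.1.1)) =
        law Q (fun v => (nz (M (xr d w₀ ρ v)) (d.N (w k v)), xr d w₀ ρ v)) := by
      funext x
      exact mR.law (fun v => (nz (M (xr d w₀ ρ v)) (d.N (w k v)), xr d w₀ ρ v)) x
    rw [e1]
    refine law_congr' hQ0 fun v hv => ?_
    unfold nq
    rw [(hpt v hv).2.1]
  have eN : ∀ v, 0 < Q v → nz (M (xr d w₀ ρ v)) (d.N (w k v)) = nq d w₀ ρ M v := by
    intro v hv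
    unfold nq
    rw [(hpt v hv).2.1]
  have eW : ∀ (z : (R × d.Om) × d.Om), 0 < q z → ∀ (r : ℕ) (u : Fin c → Fin (2 ^ d.X)),
      (low q (sh (fun z => nz (M (xr d w₀ ρ z.1.1)) (d.N (w k z.1.1))) u)
        (fun z => xr d w₀ ρ z.1.1) (d.X + (kz + 4) + 1 - r) K D z ↔
        lw d Q w₀ ρ M kz K D z.1.1 r u) := by
    intro z hz r u
    have hv := mR.pos hql.nonneg hz
    have s1 := low_marg mR (sh (fun v => nz (M (xr d w₀ ρ v)) (d.N (w k v))) u)
      (xr d w₀ ρ) (d.X + (kz + 4) + 1 - r) K D z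
    have s2 := low_congr (c := c) hQ0 (N := sh (fun v => nz (M (xr d w₀ ρ v)) (d.N (w k v))) u)
      (N' := sh (nq d w₀ ρ M) u) (τ := xr d w₀ ρ) (τ' := xr d w₀ ρ) (fun v hv => ⟨by
        funext i
        unfold sh
        show nz (M (xr d w₀ ρ v)) (d.N (w k v)) i + _ = _
        rw [eN v hv], rfl⟩) (d.X + (kz + 4) + 1 - r) K D hv
    exact s1.trans s2
  unfold mn
  have eq : ∀ v a b, q ((v, a), b) = Q v * (d.pk i (w k v) a * d.pk j (w k v) b) := by
    intro v a b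
    rw [hq]
    exact ex2_apply hQ mk v a b
  rw [Fintype.sum_prod_type, Fintype.sum_prod_type]
  refine Finset.sum_congr rfl fun v _ => ?_
  rcases (hQ0 v).eq_or_lt with hv | hv
  · rw [← hv, zero_mul]
    symm
    refine Finset.sum_eq_zero fun a _ => Finset.sum_eq_zero fun b _ => ?_
    rw [eq, ← hv]
    simp
  rw [← sum_swap, Finset.mul_sum]
  refine Finset.sum_congr rfl fun a _ => ?_
  rw [Finset.mul_sum]
  refine Finset.sum_congr rfl fun b _ => ?_
  rw [← mul_assoc, ← eq v a b]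
  rcases (hql.nonneg ((v, a), b)).eq_or_lt with h0 | h0
  · rw [← h0, zero_mul, zero_mul]
  congr 1
  refine Finset.sum_congr rfl fun r _ => ?_
  have hv' : d.T (w k v) = d.T (w₀ v) := (hpt v hv).2.2
  by_cases hA : Adm d (M (xr d w₀ ρ v)) kz g (d.T (w k v)) (d.T (wm ((v, a), b)))
        (d.T (wp ((v, a), b))) ∧
      0 ≤ (r : ℤ) - mus d (d.T (w k v)) (d.T (wm ((v, a), b))) (d.T (wp ((v, a), b))) ∧
      d.act c₁ k₇ ((r : ℤ) - mus d (d.T (w k v)) (d.T (wm ((v, a), b)))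
        (d.T (wp ((v, a), b)))).toNat (d.L (w k v))
  · rw [if_pos hA]
    congr 1
    refine Finset.sum_congr rfl fun u _ => ?_
    have e0 := eW ((v, a), b) h0 r u
    have e1 : (2 : ℝ) ^ (-(g : ℤ)) < |phi d C Q w₀ ρ M v r u (wm ((v, a), b)) +
        phi d C Q w₀ ρ M v r u (wp ((v, a), b))| ↔ (2 : ℝ) ^ (-(g : ℤ)) <
        |∑ i, C ((d.Vt × d.Tau) × (Fin c → d.Tau)) (law q (fun z =>
            (nz (M (xr d w₀ ρ z.1.1)) (d.N (w k z.1.1)), xr d w₀ ρ z.1.1))) d.X r u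
            (nz (M (xr d w₀ ρ v)) (d.N (w k v))) (xr d w₀ ρ v) i *
          (zc (M (xr d w₀ ρ v)) (d.chi (d.T (w k v)) (d.T (wm ((v, a), b)))) i +
            zc (M (xr d w₀ ρ v)) (d.chi (d.T (w k v)) (d.T (wp ((v, a), b)))) i)| := by
      rw [eL, eN v hv, hv']
      unfold phi cov
      rw [← Finset.sum_add_distrib]
      simp_rw [mul_add]
    by_cases hl : lw d Q w₀ ρ M kz K D v r u
    · rw [if_pos hl]
      by_cases hB : (2 : ℝ) ^ (-(g : ℤ)) < |phi d C Q w₀ ρ M v r u (wm ((v, a), b)) +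
        phi d C Q w₀ ρ M v r u (wp ((v, a), b))|
      · rw [if_pos ⟨hA.1, hA.2.1, hA.2.2, hB⟩, if_pos ⟨e0.mpr hl, e1.mp hB⟩]
      · rw [if_neg (fun h => hB h.2.2.2), if_neg (fun h => hB (e1.mpr h.2))]
    · rw [if_neg hl, if_neg (fun h => hl (e0.mp h.1))]
  · rw [if_neg hA]
    refine div_eq_zero_iff.2 (Or.inl (Finset.sum_eq_zero fun u _ => ?_))
    by_cases hl : lw d Q w₀ ρ M kz K D v r u
    · rw [if_pos hl, if_neg (fun h => hA ⟨h.1, h.2.1, h.2.2.1⟩)]
    · rw [if_neg hl]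

end Pool.OCV
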